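import Pool.Agent.Q5.RG.Pub

/-! The conjecture of Beilinson and Bloch for the base changes `X_F` of a curve `X` (or of any projective
variety) over a number field `K`, and the degrees of the fields `F`. No continuation is presupposed. -/

namespace Pool.Agent.Results.MP_743d1e_nt.DegreeLaw

open NumberField IsDedekindDomain Polynomial Pool.Agent.Q5.RG Pool.Agent.Q5.VL

/-- the regulator of `X_F` is an isomorphism, and for all choices of the bad Euler factors the `t`-th
power of `L(H^i(X_F), s)` has a meromorphic continuation to `Ω`; its order at `s = m` is `t` times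
the dimension of motivic cohomology, and its leading coefficient a rational multiple of the `t`-th
power of the determinant of the regulator. -/
def BeilinsonPower {K : Type} [Field K] [NumberField K] {n : ℕ}
    (X : Set (MvPolynomial (Fin n) (𝓞 K))) (d i N : ℕ) (m : ℤ) (Ω : Set ℂ)
    (M : Spaces ℚ ℝ Gal(AlgebraicClosure K/K)) (F : Type) [Field F] [NumberField F] [Algebra K F]
    (t : ℕ) : Prop :=
  (∃ p c, M.Reg F p c) ∧
    ∀ B : HeightOneSpectrum (𝓞 F) → ℚ[X], Sys X d i N m F B → M.Pow m Ω F B t

theorem result (K : Type) [Field K] [NumberField K] (n : ℕ) (X : Set (MvPolynomial (Fin n) (𝓞 K)))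
    (d i N : ℕ) (hi : i ≤ 2 * d) (m : ℤ) (Ω : Set ℂ) (hΩ : IsDom Ω (m : ℂ))
    (hsys : ∀ (F : Type) [Field F] [NumberField F] [Algebra K F], ∃ B, Sys X d i N m F B)
    (M : Spaces ℚ ℝ Gal(AlgebraicClosure K/K)) (hM : M.Good) :
    -- (1) the conjecture for the degrees divisible by `D`
    (∀ D : ℕ, D ≠ 0 →
      (∀ (F : Type) [Field F] [NumberField F] [Algebra K F], D ∣ Module.finrank K F →
        BeilinsonPower X d i N m Ω M F 1) →
      ∀ (F : Type) [Field F] [NumberField F] [Algebra K F],
        BeilinsonPower X d i N m Ω M F (D / D.gcd (Module.finrank K F))) ∧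
    -- (2) the conjecture for a set of degrees without common divisor
    (∀ D : Set ℕ, (∀ k ∈ D, ∀ l : ℕ, 0 < l → k * l ∈ D) → (∀ g : ℕ, (∀ k ∈ D, g ∣ k) → g = 1) →
      (∀ (F : Type) [Field F] [NumberField F] [Algebra K F], Module.finrank K F ∈ D →
        BeilinsonPower X d i N m Ω M F 1) →
      ∀ (F : Type) [Field F] [NumberField F] [Algebra K F], BeilinsonPower X d i N m Ω M F 1) := by
  have hG := Spaces.goodM hM
  refine ⟨fun D hD h F _ _ _ => ?_, fun D hD hD' h F _ _ _ => ?_⟩
  · obtain ⟨h1, h2⟩ := conjQ_degree hi hΩ hG hsys (D := D) (fun F' _ _ _ hF' =>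
      (Spaces.conj_iff hM.comp.onto).2 (h F' hF')) F hD
    have h3 := (Spaces.ex_iff hM.comp.onto).2 h1
    exact ⟨h3, fun B hB => (Spaces.pow_iff hM.comp.onto h3).2 (h2 B hB)⟩
  · exact (Spaces.conj_iff hM.comp.onto).1 (conjQ_sparse hi hΩ hG hsys hD hD' (fun F' _ _ _ hF' =>
      (Spaces.conj_iff hM.comp.onto).2 (h F' hF')) F)

end Pool.Agent.Results.MP_743d1e_nt.DegreeLaw
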