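import Pool.Agent.Q223.LD.RG

/-! The conjecture of Beilinson and Bloch for the base changes `X_F` of a curve `X` (or of any projective
variety) over a number field `K`, and the local degrees of the fields `F`. No continuation is
presupposed. -/

set_option autoImplicit false

namespace Pool.Agent.Results.MP_743d1e_nt.LocalDegrees

open NumberField IsDedekindDomain Polynomial Pool.Agent.Q5.RG Pool.Agent.Q5.VL

/-- the regulator of `X_F` is an isomorphism, and for all choices of the bad Euler factors the `t`-th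
power of `L(H^i(X_F), s)` has a meromorphic continuation to `Ω`; its order at `s = m` is `t` times
the dimension of motivic cohomology, and its leading coefficient a rational multiple of the `t`-th
power of the determinant of the regulator. -/
def BeilinsonPower {K : Type} [Field K] [NumberField K] {n : ℕ}
    (X : Set (MvPolynomial (Fin n) (𝓞 K))) (d i N : ℕ) (m : ℤ) (Ω : Set ℂ)
    (M : Spaces ℚ ℝ Gal(AlgebraicClosure K/K)) (F : Type) [Field F] [NumberField F] [Algebra K F]
    (t : ℕ) : Prop :=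
  (∃ p c, M.Reg F p c) ∧
    ∀ B : HeightOneSpectrum (𝓞 F) → ℚ[X], Sys X d i N m F B → M.Pow m Ω F B t

theorem result (K : Type) [Field K] [NumberField K] (n : ℕ) (X : Set (MvPolynomial (Fin n) (𝓞 K)))
    (d i N : ℕ) (hi : i ≤ 2 * d) (m : ℤ) (Ω : Set ℂ) (hΩ : IsDom Ω (m : ℂ))
    (hsys : ∀ (F : Type) [Field F] [NumberField F] [Algebra K F], ∃ B, Sys X d i N m F B)
    (M : Spaces ℚ ℝ Gal(AlgebraicClosure K/K)) (hM : M.Good)
    -- a finite set of primes, and sets of integers closed under multiples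
    (S : Finset ℕ) (hS : ∀ q ∈ S, q.Prime) (D : ℕ → Set ℕ)
    (hD : ∀ q ∈ S, ∀ k ∈ D q, ∀ l : ℕ, 0 < l → k * l ∈ D q)
    -- the conjecture for the fields whose local degrees above `S` are in these sets
    (h : ∀ (F : Type) [Field F] [NumberField F] [Algebra K F], (∀ q ∈ S, ∀ v : Ideal (𝓞 F),
      v.IsPrime → (q : 𝓞 F) ∈ v → v.ramificationIdx ℤ * v.inertiaDeg ℤ ∈ D q) →
      BeilinsonPower X d i N m Ω M F 1) :
    -- (1) sets without common divisor
    ((∀ q ∈ S, ∀ g : ℕ, (∀ k ∈ D q, g ∣ k) → g = 1) →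
      ∀ (F : Type) [Field F] [NumberField F] [Algebra K F], BeilinsonPower X d i N m Ω M F 1) ∧
    -- (2) arbitrary sets
    ∀ (F : Type) [Field F] [NumberField F] [Algebra K F] (e : ℕ), e ≠ 0 →
      (∀ p : ℕ, p.Prime → ∃ k : ℕ → ℕ, ∀ q ∈ S, k q ∈ D q ∧ k q ≠ 0 ∧
        ∀ v : Ideal (𝓞 F), v.IsPrime → (q : 𝓞 F) ∈ v →
          p ^ (k q).factorization p ∣ e * (v.ramificationIdx ℤ * v.inertiaDeg ℤ)) →
      BeilinsonPower X d i N m Ω M F e := by
  have key : ∀ (F : Type) [Field F] [NumberField F] [Algebra K F] (e : ℕ), e ≠ 0 →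
      (∀ p : ℕ, p.Prime → ∃ k : ℕ → ℕ, ∀ q ∈ S, k q ∈ D q ∧ k q ≠ 0 ∧
        ∀ v : Ideal (𝓞 F), v.IsPrime → (q : 𝓞 F) ∈ v →
          p ^ (k q).factorization p ∣ e * (v.ramificationIdx ℤ * v.inertiaDeg ℤ)) →
      BeilinsonPower X d i N m Ω M F e := by
    intro F _ _ _ e he H
    exact Pool.Agent.Q223.LD.rg_gen hi hΩ hsys hM hS hD
      (fun F' _ _ _ hF' => by
        obtain ⟨h1, h2⟩ := h F' hF'
        exact ⟨h1, h2⟩) F e he H
  refine ⟨fun hD' F _ _ _ => key F 1 one_ne_zero fun p hp => ?_, key⟩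
  have h1 : ∀ q ∈ S, ∃ k ∈ D q, ¬ p ∣ k := by
    intro q hq
    by_contra hcon
    push Not at hcon
    exact hp.ne_one (hD' q hq p hcon)
  choose! k hk hpk using h1
  refine ⟨k, fun q hq => ⟨hk q hq, ?_, fun v _ _ => ?_⟩⟩
  · intro h0
    apply hpk q hq
    rw [h0]
    exact dvd_zero _
  · rw [Nat.factorization_eq_zero_of_not_dvd (hpk q hq), pow_zero]
    exact one_dvd _

end Pool.Agent.Results.MP_743d1e_nt.LocalDegrees
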